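import Mathlib

namespace Pool.Agent.MP_742cc2_an.H85

/-- the real cube root of two -/
noncomputable def be : ℝ := (2 : ℝ) ^ ((1 : ℝ) / 3)

lemma be_pos : 0 < be := Real.rpow_pos_of_pos (by norm_num) _

lemma be_cube : be ^ 3 = 2 := by
  unfold be
  rw [← Real.rpow_natCast, ← Real.rpow_mul (by norm_num)]
  norm_num

lemma be_gt : 5 / 4 < be := by
  by_contra! h
  have := pow_le_pow_left₀ be_pos.le h 3
  rw [be_cube] at this
  norm_num at this

lemma be_lt : be < 63 / 50 := by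
  by_contra! h
  have := pow_le_pow_left₀ (by norm_num) h 3
  rw [be_cube] at this
  norm_num at this

/-- the rotation vector -/
noncomputable def al : ℝ × ℝ := (be, be ^ 2)

/-- the small unit -/
noncomputable def et : ℝ := be - 1

lemma et_gt : 1 / 4 < et := by unfold et; linarith [be_gt]
lemma et_lt : et < 13 / 50 := by unfold et; linarith [be_lt]
lemma et_pos : 0 < et := by linarith [et_gt]

/-- integer coordinates of the powers of `et` -/
def co : ℕ → ℤ × ℤ × ℤ
  | 0 => (1, 0, 0)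
  | j + 1 => (2 * (co j).2.2 - (co j).1, (co j).1 - (co j).2.1, (co j).2.1 - (co j).2.2)

lemma co_spec (j : ℕ) :
    et ^ j = ((co j).1 : ℝ) + ((co j).2.1 : ℝ) * be + ((co j).2.2 : ℝ) * be ^ 2 := by
  induction j with
  | zero => simp [co]
  | succ j ih =>
    rw [pow_succ, ih]
    simp only [co, et]
    push_cast
    linear_combination ((co j).2.2 : ℝ) * be_cube

lemma co_bound (j : ℕ) :
    |(co j).1| ≤ 3 ^ j ∧ |(co j).2.1| ≤ 3 ^ j ∧ |(co j).2.2| ≤ 3 ^ j := by
  induction j with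
  | zero => simp [co]
  | succ j ih =>
    obtain ⟨h1, h2, h3⟩ := ih
    simp only [co, pow_succ]
    rw [abs_le] at h1 h2 h3
    have : (0 : ℤ) < 3 ^ j := by positivity
    refine ⟨?_, ?_, ?_⟩ <;> rw [abs_le] <;> constructor <;> omega

lemma approx (k : ℕ) : ∀ p q : ℝ, ∃ n a b : ℤ,
    |p - (n * be + a)| + |q - (n * be ^ 2 + b)| ≤ 2 * (9 / 10) ^ k := by
  induction k with
  | zero =>
    intro p q
    refine ⟨0, ⌊p⌋, ⌊q⌋, ?_⟩
    have h1 := Int.floor_le p
    have h2 := Int.lt_floor_add_one p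
    have h3 := Int.floor_le q
    have h4 := Int.lt_floor_add_one q
    simp only [Int.cast_zero, zero_mul, zero_add, pow_zero, mul_one]
    rw [abs_of_nonneg (by linarith), abs_of_nonneg (by linarith)]
    linarith
  | succ k ih =>
    intro p q
    have hb1 := be_gt
    have hb2 := be_lt
    have hb3 := be_cube
    have hne : (1 - be) ≠ 0 := by linarith
    set s := p / (1 - be) with hs
    have hp : p = (1 - be) * s := by rw [hs]; field_simp
    obtain ⟨n, a, b, h⟩ := ih (q - (1 - be ^ 2) * s) (s - (q - (1 - be ^ 2) * s))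
    refine ⟨n - a - b, -2 * n + a + b, -2 * n + 2 * a + b, ?_⟩
    set x := q - (1 - be ^ 2) * s - (n * be + a) with hx
    set y := s - (q - (1 - be ^ 2) * s) - (n * be ^ 2 + b) with hy
    have e1 : p - (((n - a - b : ℤ) : ℝ) * be + ((-2 * n + a + b : ℤ) : ℝ)) =
        (1 - be) * x + (1 - be) * y := by
      rw [hp, hx, hy]; push_cast; linear_combination (-(n : ℝ)) * hb3
    have e2 : q - (((n - a - b : ℤ) : ℝ) * be ^ 2 + ((-2 * n + 2 * a + b : ℤ) : ℝ)) =
        (2 - be ^ 2) * x + (1 - be ^ 2) * y := by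
      rw [hx, hy]; push_cast; linear_combination (-(n : ℝ) - n * be) * hb3
    rw [e1, e2]
    have hsq1 : 25 / 16 < be ^ 2 := by nlinarith
    have hsq2 : be ^ 2 < 3969 / 2500 := by nlinarith
    have i1 : |(1 - be) * x + (1 - be) * y| ≤ (13 / 50) * |x| + (13 / 50) * |y| := by
      refine (abs_add_le _ _).trans ?_
      rw [abs_mul, abs_mul]
      have : |1 - be| ≤ 13 / 50 := by rw [abs_le]; constructor <;> linarith
      gcongr
    have i2 : |(2 - be ^ 2) * x + (1 - be ^ 2) * y| ≤ (32 / 50) * |x| + (32 / 50) * |y| := by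
      refine (abs_add_le _ _).trans ?_
      rw [abs_mul, abs_mul]
      have : |2 - be ^ 2| ≤ 32 / 50 := by rw [abs_le]; constructor <;> linarith
      have : |1 - be ^ 2| ≤ 32 / 50 := by rw [abs_le]; constructor <;> linarith
      gcongr
    rw [pow_succ (9 / 10 : ℝ)]
    linarith

lemma dense_al (z : ℝ × ℝ) {ε : ℝ} (hε : 0 < ε) : ∃ n a b : ℤ,
    ‖z - ((n : ℝ) • al + ((a : ℝ), (b : ℝ)))‖ < ε := by
  obtain ⟨k, hk⟩ := exists_pow_lt_of_lt_one (half_pos hε) (by norm_num : (9 / 10 : ℝ) < 1)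
  obtain ⟨n, a, b, h⟩ := approx k z.1 z.2
  refine ⟨n, a, b, ?_⟩
  have h1 := abs_nonneg (z.1 - (n * be + a))
  have h2 := abs_nonneg (z.2 - (n * be ^ 2 + b))
  rw [Prod.norm_def, max_lt_iff]
  simp only [al, Prod.smul_mk, smul_eq_mul, Prod.mk_add_mk, Prod.fst_sub, Prod.snd_sub,
    Real.norm_eq_abs]
  constructor <;> linarith

lemma rigid {ε : ℝ} (hε : 0 < ε) (N : ℕ) : ∃ r a b : ℤ, (N : ℤ) ≤ |r| ∧
    ‖(r : ℝ) • al + ((a : ℝ), (b : ℝ))‖ < ε := by
  set δ : ℝ := min (1 / 4) (ε / (2 * (N + 1))) with hδ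
  have hδ0 : 0 < δ := lt_min (by norm_num) (by positivity)
  have hδ1 : δ ≤ 1 / 4 := min_le_left _ _
  have hδ2 : δ ≤ ε / (2 * (N + 1)) := min_le_right _ _
  obtain ⟨n, a, b, h⟩ := dense_al (δ, 0) hδ0
  have hn : n ≠ 0 := by
    rintro rfl
    rw [Prod.norm_def, max_lt_iff] at h
    have h1 := h.1
    simp only [Int.cast_zero, zero_smul, zero_add, Prod.fst_sub, Real.norm_eq_abs] at h1
    rw [abs_lt] at h1
    have h2 : (0 : ℝ) < a := by linarith
    have h3 : (a : ℝ) < 1 := by linarith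
    have h2' : (0 : ℤ) < a := by exact_mod_cast h2
    have h3' : a < 1 := by exact_mod_cast h3
    omega
  refine ⟨(N + 1) * n, (N + 1) * a, (N + 1) * b, ?_, ?_⟩
  · rw [abs_mul, abs_of_nonneg (by positivity : (0 : ℤ) ≤ N + 1)]
    have : 1 ≤ |n| := Int.one_le_abs hn
    nlinarith
  · have e : ((((N + 1) * n : ℤ) : ℝ) • al + (((((N + 1) * a : ℤ) : ℝ)), ((((N + 1) * b : ℤ) : ℝ))))
        = ((N : ℝ) + 1) • ((n : ℝ) • al + ((a : ℝ), (b : ℝ))) := by
      ext <;> simp <;> ring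
    rw [e, norm_smul, Real.norm_of_nonneg (by positivity)]
    have h1 : ‖(n : ℝ) • al + ((a : ℝ), (b : ℝ))‖ < 2 * δ := by
      have h2 : ‖((δ, 0) : ℝ × ℝ)‖ = δ := by simp [Prod.norm_def, abs_of_pos hδ0, hδ0.le]
      have h3 := norm_sub_norm_le ((n : ℝ) • al + ((a : ℝ), (b : ℝ))) (δ, 0)
      rw [norm_sub_rev] at h3
      linarith
    have h4 : 2 * δ * (N + 1) ≤ ε := by
      rw [le_div_iff₀ (by positivity)] at hδ2; linarith
    have : (0 : ℝ) < N + 1 := by positivity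
    nlinarith

end Pool.Agent.MP_742cc2_an.H85
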