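import Pool.Agent.MP_742cc2_an.H85.Series

namespace Pool.Agent.MP_742cc2_an.H85

open Real Filter Topology

abbrev T2 := UnitAddCircle × UnitAddCircle

/-- projection of the plane on the torus -/
noncomputable def pr (y : ℝ × ℝ) : T2 := ((y.1 : UnitAddCircle), (y.2 : UnitAddCircle))

lemma pr_cont : Continuous pr := by
  unfold pr
  fun_prop

lemma pr_surj : Function.Surjective pr := by
  rintro ⟨x, y⟩
  obtain ⟨a, rfl⟩ := QuotientAddGroup.mk_surjective x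
  obtain ⟨b, rfl⟩ := QuotientAddGroup.mk_surjective y
  exact ⟨(a, b), rfl⟩

lemma pr_add (y z : ℝ × ℝ) : pr (y + z) = pr y + pr z := by simp [pr]

lemma pr_int (a b : ℤ) : pr ((a : ℝ), (b : ℝ)) = 0 := by
  simp only [pr, Prod.mk_eq_zero]
  constructor <;> rw [AddCircle.coe_eq_zero_iff]
  · exact ⟨a, by simp⟩
  · exact ⟨b, by simp⟩

lemma pr_zsmul (n : ℤ) (y : ℝ × ℝ) : pr ((n : ℝ) • y) = n • pr y := by
  simp only [pr, Prod.smul_fst, Prod.smul_snd, smul_eq_mul, Prod.smul_mk, ← zsmul_eq_mul,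
    AddCircle.coe_zsmul]

lemma pr_eq {y z : ℝ × ℝ} (h : pr y = pr z) : ∃ a b : ℤ, y = z + ((a : ℝ), (b : ℝ)) := by
  simp only [pr, Prod.mk.injEq] at h
  obtain ⟨h1, h2⟩ := h
  rw [← sub_eq_zero, ← AddCircle.coe_sub, AddCircle.coe_eq_zero_iff] at h1 h2
  obtain ⟨a, ha⟩ := h1
  obtain ⟨b, hb⟩ := h2
  refine ⟨a, b, ?_⟩
  simp only [zsmul_eq_mul, mul_one] at ha hb
  ext <;> simp [ha, hb]

lemma SS_int (n : ℤ) (y : ℝ × ℝ) (a b : ℤ) : SS n (y + ((a : ℝ), (b : ℝ))) = SS n y := by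
  simpa [SS_zero] using SS_shift n y 0 a b

/-- the cocycle on the torus -/
noncomputable def ph (x : T2) : ℝ := SS 1 (Function.surjInv pr_surj x)

lemma ph_pr (y : ℝ × ℝ) : ph (pr y) = SS 1 y := by
  obtain ⟨a, b, h⟩ := pr_eq (Function.surjInv_eq pr_surj (pr y))
  rw [ph, h, SS_int]

/-- the cylindrical transformation -/
noncomputable def FF : Equiv.Perm (T2 × ℝ) where
  toFun p := (p.1 + pr al, p.2 + ph p.1)
  invFun p := (p.1 - pr al, p.2 - ph (p.1 - pr al))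
  left_inv p := by simp
  right_inv p := by simp

lemma zpow_orbit {X : Type} (F : Equiv.Perm X) (P : ℤ → X) (h : ∀ n, F (P n) = P (n + 1))
    (n : ℤ) : (F ^ n) (P 0) = P n := by
  induction n using Int.induction_on with
  | zero => simp
  | succ n ih => rw [add_comm, zpow_one_add, Equiv.Perm.mul_apply, ih, h, add_comm]
  | pred n ih =>
    apply F.injective
    rw [h, sub_add_cancel, ← ih, ← Equiv.Perm.mul_apply, ← zpow_one_add]
    congr 2
    ring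

lemma FF_zpow (n : ℤ) (y : ℝ × ℝ) (t : ℝ) :
    (FF ^ n) (pr y, t) = (pr (y + (n : ℝ) • al), t + SS n y) := by
  have := zpow_orbit FF (fun n => (pr (y + (n : ℝ) • al), t + SS n y)) ?_ n
  · simpa [SS_zero] using this
  · intro n
    have h := SS_shift 1 y n 0 0
    simp only [Int.cast_zero, Prod.mk_zero_zero, add_zero] at h
    simp only [FF, Equiv.coe_fn_mk, ph_pr, h, ← pr_add, Prod.mk.injEq]
    constructor
    · congr 1; push_cast; rw [add_smul, one_smul, add_assoc]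
    · rw [add_comm 1 n]; ring

lemma minimal (x : T2) : Dense (Set.range fun n : ℤ => x + n • pr al) := by
  obtain ⟨y, rfl⟩ := pr_surj x
  rw [dense_iff_inter_open]
  rintro U hU ⟨w, hw⟩
  obtain ⟨z, rfl⟩ := pr_surj w
  obtain ⟨ε, hε, hb⟩ := Metric.isOpen_iff.1 (hU.preimage pr_cont) z hw
  obtain ⟨n, a, b, h⟩ := dense_al (z - y) hε
  refine ⟨pr (y + ((n : ℝ) • al + ((a : ℝ), (b : ℝ)))), hb ?_, n, ?_⟩
  · rw [mem_ball_iff_norm', ← sub_sub]; exact h
  · simp only [pr_add, pr_int, pr_zsmul, add_zero]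

lemma transit (y1 y2 : ℝ × ℝ) (t1 t2 : ℝ) {ε : ℝ} (hε : 0 < ε) :
    ∃ (n : ℤ) (x w : ℝ × ℝ), ‖x - y1‖ < ε ∧ ‖w - y2‖ < ε ∧ pr (x + (n : ℝ) • al) = pr w ∧
      t1 + SS n x = t2 := by
  obtain ⟨j, a, b, h1⟩ := dense_al y1 (half_pos hε)
  obtain ⟨j', a', b', h2⟩ := dense_al y2 (half_pos hε)
  obtain ⟨N1, hN1⟩ := SS_large (t2 - t1 + SS j 0)
  obtain ⟨N2, hN2⟩ := SS_large (t1 - t2 + SS j' 0)
  obtain ⟨r, c, d, hr, hδ⟩ := rigid (half_pos hε) (N1 + N2 + j.natAbs + j'.natAbs)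
  set δ : ℝ × ℝ := (r : ℝ) • al + ((c : ℝ), (d : ℝ)) with hδdef
  set x0 : ℝ × ℝ := (j : ℝ) • al + ((a : ℝ), (b : ℝ)) with hx0
  set y0 : ℝ × ℝ := (j' : ℝ) • al + ((a' : ℝ), (b' : ℝ)) with hy0
  set n : ℤ := j' - j + r with hn
  have hc : Continuous fun s : ℝ => SS n (x0 - s • δ) := (SS_cont n).comp (by fun_prop)
  have e0 : SS n (x0 - (0 : ℝ) • δ) = SS (j' + r) 0 - SS j 0 := by
    have := SS_shift n 0 j a b
    rw [zero_add] at this
    rw [zero_smul, sub_zero, hx0, this, hn]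
    congr 2; ring
  have e1 : SS n (x0 - (1 : ℝ) • δ) = SS j' 0 - SS (j - r) 0 := by
    have := SS_shift n 0 (j - r) (a - c) (b - d)
    rw [zero_add] at this
    have e : x0 - (1 : ℝ) • δ = ((j - r : ℤ) : ℝ) • al + (((a - c : ℤ) : ℝ), ((b - d : ℤ) : ℝ)) := by
      rw [hx0, hδdef]; ext <;> simp <;> ring
    rw [e, this, hn]
    congr 2; ring
  have i0 := hN1 (j' + r) (by rw [Int.abs_eq_natAbs] at hr ⊢; omega)
  have i1 := hN2 (j - r) (by rw [Int.abs_eq_natAbs] at hr ⊢; omega)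
  obtain ⟨s, hs, hs'⟩ := intermediate_value_Icc' zero_le_one hc.continuousOn
    (show t2 - t1 ∈ Set.Icc _ _ from ⟨by simp only [e1]; linarith, by simp only [e0]; linarith⟩)
  have b1 : ‖s • δ‖ ≤ ‖δ‖ := by
    rw [norm_smul, Real.norm_of_nonneg hs.1]; nlinarith [hs.2, norm_nonneg δ]
  have b2 : ‖(1 - s) • δ‖ ≤ ‖δ‖ := by
    rw [norm_smul, Real.norm_of_nonneg (by linarith [hs.2])]; nlinarith [hs.1, norm_nonneg δ]
  refine ⟨n, x0 - s • δ, y0 + (1 - s) • δ, ?_, ?_, ?_, by simp only at hs'; linarith⟩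
  · rw [show x0 - s • δ - y1 = -((y1 - x0) + s • δ) by abel, norm_neg]
    linarith [norm_add_le (y1 - x0) (s • δ)]
  · rw [show y0 + (1 - s) • δ - y2 = -((y2 - y0) - (1 - s) • δ) by abel, norm_neg]
    linarith [norm_sub_le (y2 - y0) ((1 - s) • δ)]
  · have e : x0 - s • δ + (n : ℝ) • al =
        y0 + (1 - s) • δ + (((a - a' - c : ℤ) : ℝ), ((b - b' - d : ℤ) : ℝ)) := by
      rw [hx0, hy0, hn, sub_smul, one_smul]
      conv_rhs => enter [1, 2, 1]; rw [hδdef]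
      ext <;> simp <;> ring
    rw [e, pr_add _ (_, _), pr_int, add_zero]

lemma dense_orbit : ∃ p : T2 × ℝ, Dense (Set.range fun n : ℤ => (FF ^ n) p) := by
  let G : Set (T2 × ℝ) → Set ((ℝ × ℝ) × ℝ) := fun U =>
    ⋃ n : ℤ, (fun q : (ℝ × ℝ) × ℝ => (pr (q.1 + (n : ℝ) • al), q.2 + SS n q.1)) ⁻¹' U
  have hd : Dense (⋂ U ∈ TopologicalSpace.countableBasis (T2 × ℝ), G U) := by
    refine dense_biInter_of_isOpen (fun U hU => isOpen_iUnion fun n => ?_)
      (TopologicalSpace.countable_countableBasis _) fun U hU => ?_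
    · refine (TopologicalSpace.isOpen_of_mem_countableBasis hU).preimage ?_
      have h1 := pr_cont
      have h2 := SS_cont n
      fun_prop
    · obtain ⟨⟨w, t2⟩, hw⟩ := TopologicalSpace.nonempty_of_mem_countableBasis hU
      obtain ⟨y2, rfl⟩ := pr_surj w
      have hUo := TopologicalSpace.isOpen_of_mem_countableBasis hU
      have hc : Continuous fun y : ℝ × ℝ => (pr y, t2) := by
        have h1 := pr_cont
        fun_prop
      obtain ⟨ε2, hε2, hb2⟩ := Metric.isOpen_iff.1 (hUo.preimage hc) y2 hw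
      rw [dense_iff_inter_open]
      rintro V hV ⟨⟨y1, t1⟩, hy1⟩
      have hc' : Continuous fun y : ℝ × ℝ => (y, t1) := by fun_prop
      obtain ⟨ε1, hε1, hb1⟩ := Metric.isOpen_iff.1 (hV.preimage hc') y1 hy1
      obtain ⟨n, x, w, h1, h2, h3, h4⟩ := transit y1 y2 t1 t2 (lt_min hε1 hε2)
      refine ⟨(x, t1), hb1 (mem_ball_iff_norm.2 (h1.trans_le (min_le_left _ _))), ?_⟩
      refine Set.mem_iUnion.2 ⟨n, ?_⟩
      simp only [Set.mem_preimage, h3, h4]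
      exact hb2 (mem_ball_iff_norm.2 (h2.trans_le (min_le_right _ _)))
  obtain ⟨⟨y, t⟩, hq⟩ := hd.nonempty
  refine ⟨(pr y, t), ?_⟩
  rw [(TopologicalSpace.isBasis_countableBasis (T2 × ℝ)).dense_iff]
  intro U hU _
  obtain ⟨n, hn⟩ := Set.mem_iUnion.1 (Set.mem_iInter₂.1 hq U hU)
  exact ⟨_, hn, n, FF_zpow n y t⟩

lemma tendsto_origin : Tendsto (fun n : ℤ => ((FF ^ n) (pr 0, 0)).2) cofinite atTop := by
  simp only [FF_zpow, zero_add]
  rw [tendsto_atTop]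
  intro C
  obtain ⟨N, hN⟩ := SS_large C
  rw [eventually_cofinite]
  refine (Set.finite_Ioo (-(N : ℤ)) N).subset fun n hn => ?_
  have : ¬ (N : ℤ) ≤ |n| := fun h => hn (hN n h)
  rw [not_le, abs_lt] at this
  exact this

lemma isDiscrete_of_tendsto {X : Type} [TopologicalSpace X] [T1Space X] (g : ℤ → X × ℝ)
    (h : Tendsto (fun n => (g n).2) cofinite atTop) : IsDiscrete (Set.range g) := by
  rw [isDiscrete_iff_forall_mem_exists_isOpen]
  intro y hy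
  have hf : {n | ¬ (y.2 + 1 ≤ (g n).2)}.Finite := eventually_cofinite.1 (tendsto_atTop.1 h _)
  have hf2 : ((g '' {n | ¬ (y.2 + 1 ≤ (g n).2)}) \ {y}).Finite := (hf.image g).sdiff
  refine ⟨{w | w.2 < y.2 + 1} ∩ ((g '' {n | ¬ (y.2 + 1 ≤ (g n).2)}) \ {y})ᶜ,
    (isOpen_lt continuous_snd continuous_const).inter hf2.isClosed.isOpen_compl, ?_⟩
  ext w
  constructor
  · rintro ⟨⟨h1, h2⟩, n, rfl⟩
    by_contra h3
    exact h2 ⟨⟨n, not_le.2 h1, rfl⟩, h3⟩
  · rintro rfl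
    exact ⟨⟨by simp, fun h => h.2 rfl⟩, hy⟩

end Pool.Agent.MP_742cc2_an.H85
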