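import Pool.Agent.MP_742cc2_an.H85.Arith

namespace Pool.Agent.MP_742cc2_an.H85

open Real Filter Topology

/-- amplitudes -/
noncomputable def AA (j : ℕ) : ℝ := (11 / 10) ^ j

lemma AA_pos (j : ℕ) : 0 < AA j := by unfold AA; positivity

/-- the integer linear forms -/
noncomputable def LL (j : ℕ) : (ℝ × ℝ) →L[ℝ] ℝ :=
  ((co j).2.1 : ℝ) • ContinuousLinearMap.fst ℝ ℝ ℝ + ((co j).2.2 : ℝ) • ContinuousLinearMap.snd ℝ ℝ ℝ

lemma LL_apply (j : ℕ) (y : ℝ × ℝ) : LL j y = ((co j).2.1 : ℝ) * y.1 + ((co j).2.2 : ℝ) * y.2 := by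
  simp [LL]

lemma LL_norm (j : ℕ) : ‖LL j‖ ≤ 2 * 3 ^ j := by
  refine ContinuousLinearMap.opNorm_le_bound _ (by positivity) fun y => ?_
  obtain ⟨-, h2, h3⟩ := co_bound j
  have h2' : |((co j).2.1 : ℝ)| ≤ 3 ^ j := by exact_mod_cast h2
  have h3' : |((co j).2.2 : ℝ)| ≤ 3 ^ j := by exact_mod_cast h3
  have a1 : |y.1| ≤ ‖y‖ := norm_fst_le y
  have a2 : |y.2| ≤ ‖y‖ := norm_snd_le y
  rw [LL_apply, Real.norm_eq_abs]
  refine (abs_add_le _ _).trans ?_
  rw [abs_mul, abs_mul]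
  calc _ ≤ 3 ^ j * ‖y‖ + 3 ^ j * ‖y‖ := by gcongr
    _ = _ := by ring

lemma LL_al (j : ℕ) : LL j al = et ^ j - (co j).1 := by
  rw [LL_apply, co_spec]; simp [al]; ring

/-- the `j`-th term of the `n`-th Birkhoff sum -/
noncomputable def tm (n : ℤ) (j : ℕ) (y : ℝ × ℝ) : ℝ :=
  AA j * (cos (2 * π * LL j y) - cos (2 * π * (LL j y + n * et ^ j)))

lemma cos_shift (j : ℕ) (y : ℝ × ℝ) (s : ℝ) (m a b : ℤ) :
    cos (2 * π * (LL j (y + ((m : ℝ) • al + ((a : ℝ), (b : ℝ)))) + s)) =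
      cos (2 * π * (LL j y + (m * et ^ j + s))) := by
  rw [map_add, map_add, map_smul, LL_al, LL_apply j ((a : ℝ), (b : ℝ)), smul_eq_mul,
    ← Real.cos_add_int_mul_two_pi _ (m * (co j).1 - (co j).2.1 * a - (co j).2.2 * b)]
  congr 1
  push_cast
  ring

lemma tm_shift (n : ℤ) (j : ℕ) (y : ℝ × ℝ) (m a b : ℤ) :
    tm n j (y + ((m : ℝ) • al + ((a : ℝ), (b : ℝ)))) = tm (n + m) j y - tm m j y := by
  unfold tm
  have h1 := cos_shift j y 0 m a b
  have h2 := cos_shift j y (n * et ^ j) m a b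
  rw [add_zero, add_zero] at h1
  rw [h1, h2]
  push_cast
  ring_nf

lemma tm_bound (n : ℤ) (j : ℕ) (y : ℝ × ℝ) :
    ‖tm n j y‖ ≤ (2 * π * |(n : ℝ)|) * (11 / 10 * et) ^ j := by
  unfold tm
  rw [Real.norm_eq_abs, abs_mul, abs_of_pos (AA_pos j)]
  have h := abs_cos_sub_cos_le (2 * π * LL j y) (2 * π * (LL j y + n * et ^ j))
  have e : |2 * π * LL j y - 2 * π * (LL j y + n * et ^ j)| = 2 * π * |(n : ℝ)| * et ^ j := by
    rw [show 2 * π * LL j y - 2 * π * (LL j y + n * et ^ j) = -(2 * π * n * et ^ j) by ring,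
      abs_neg, abs_mul, abs_mul, abs_of_pos (pow_pos et_pos j), abs_of_pos two_pi_pos]
  rw [e] at h
  calc _ ≤ AA j * (2 * π * |(n : ℝ)| * et ^ j) := by gcongr; exact (AA_pos j).le
    _ = _ := by rw [AA, mul_pow]; ring

lemma summable_bound (c : ℝ) : Summable fun j : ℕ => c * (11 / 10 * et) ^ j :=
  (summable_geometric_of_lt_one (by linarith [et_pos]) (by linarith [et_lt])).mul_left c

lemma tm_summable (n : ℤ) (y : ℝ × ℝ) : Summable fun j => tm n j y :=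
  Summable.of_norm_bounded (summable_bound _) fun j => tm_bound n j y

lemma tm_contDiff (n : ℤ) (j : ℕ) : ContDiff ℝ 1 (tm n j) := by
  unfold tm
  have := (LL j).contDiff (n := 1)
  fun_prop

/-- the `n`-th Birkhoff sum on the plane -/
noncomputable def SS (n : ℤ) (y : ℝ × ℝ) : ℝ := ∑' j, tm n j y

lemma SS_cont (n : ℤ) : Continuous (SS n) :=
  continuous_tsum (fun j => (tm_contDiff n j).continuous) (summable_bound _)
    fun j y => tm_bound n j y

lemma SS_shift (n : ℤ) (y : ℝ × ℝ) (m a b : ℤ) :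
    SS n (y + ((m : ℝ) • al + ((a : ℝ), (b : ℝ)))) = SS (n + m) y - SS m y := by
  unfold SS
  rw [← (tm_summable _ _).tsum_sub (tm_summable _ _)]
  exact tsum_congr fun j => tm_shift n j y m a b

lemma SS_zero (y : ℝ × ℝ) : SS 0 y = 0 := by simp [SS, tm]

lemma tm_fderiv (j : ℕ) (y : ℝ × ℝ) :
    ‖fderiv ℝ (tm 1 j) y‖ ≤ (8 * π ^ 2) * (33 / 10 * et) ^ j := by
  have h1 : ∀ s : ℝ, HasDerivAt
      (fun s : ℝ => AA j * (cos (2 * π * s) - cos (2 * π * (s + (1 : ℤ) * et ^ j))))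
      (AA j * (-sin (2 * π * s) * (2 * π) - -sin (2 * π * (s + (1 : ℤ) * et ^ j)) * (2 * π))) s := by
    intro s
    refine HasDerivAt.const_mul _ (HasDerivAt.sub ?_ ?_)
    · simpa using ((hasDerivAt_id s).const_mul (2 * π)).cos
    · simpa using (((hasDerivAt_id s).add_const (((1 : ℤ) : ℝ) * et ^ j)).const_mul (2 * π)).cos
  have h2 := (h1 (LL j y)).comp_hasFDerivAt y (LL j).hasFDerivAt
  have h3 : fderiv ℝ (tm 1 j) y = _ := h2.fderiv
  rw [h3, norm_smul, Real.norm_eq_abs]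
  have h4 := abs_sin_sub_sin_le (2 * π * (LL j y + (1 : ℤ) * et ^ j)) (2 * π * LL j y)
  have e : |2 * π * (LL j y + (1 : ℤ) * et ^ j) - 2 * π * LL j y| = 2 * π * et ^ j := by
    rw [show 2 * π * (LL j y + (1 : ℤ) * et ^ j) - 2 * π * LL j y = (2 * π * et ^ j) by
      push_cast; ring, abs_of_pos (mul_pos two_pi_pos (pow_pos et_pos j))]
  rw [e] at h4
  have e2 : AA j * (-sin (2 * π * LL j y) * (2 * π) -
      -sin (2 * π * (LL j y + (1 : ℤ) * et ^ j)) * (2 * π)) =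
      AA j * (2 * π) * (sin (2 * π * (LL j y + (1 : ℤ) * et ^ j)) - sin (2 * π * LL j y)) := by ring
  rw [e2, abs_mul, abs_of_pos (mul_pos (AA_pos j) two_pi_pos)]
  have h5 := LL_norm j
  have h6 := AA_pos j
  have h7 := pow_pos et_pos j
  calc _ ≤ AA j * (2 * π) * (2 * π * et ^ j) * (2 * 3 ^ j) := by gcongr
    _ = _ := by
      rw [AA, mul_pow, show (33 / 10 : ℝ) = 11 / 10 * 3 by norm_num, mul_pow]; ring

lemma SS_contDiff : ContDiff ℝ 1 (SS 1) := by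
  have := contDiff_tsum (𝕜 := ℝ) (N := 1) (f := tm 1)
    (v := fun k j => if k = 0 then (2 * π * |((1 : ℤ) : ℝ)|) * (11 / 10 * et) ^ j
      else (8 * π ^ 2) * (33 / 10 * et) ^ j) (fun j => tm_contDiff 1 j) ?_ ?_
  · exact this
  · intro k _
    split_ifs
    · exact summable_bound _
    · exact (summable_geometric_of_lt_one (by linarith [et_pos]) (by linarith [et_lt])).mul_left _
  · intro k j y hk
    have hk' : k ≤ 1 := by exact_mod_cast hk
    interval_cases k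
    · rw [norm_iteratedFDeriv_zero, if_pos rfl]; exact tm_bound 1 j y
    · rw [norm_iteratedFDeriv_one, if_neg one_ne_zero]; exact tm_fderiv j y

lemma tm_origin (n : ℤ) (j : ℕ) : tm n j 0 = AA j * (1 - cos (2 * π * (n * et ^ j))) := by
  simp [tm]

lemma le_SS_origin (n : ℤ) (j : ℕ) : tm n j 0 ≤ SS n 0 := by
  refine (tm_summable n 0).le_tsum j fun i _ => ?_
  rw [tm_origin]
  exact mul_nonneg (AA_pos i).le (by linarith [cos_le_one (2 * π * (n * et ^ i))])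

lemma SS_large (C : ℝ) : ∃ N : ℕ, ∀ n : ℤ, (N : ℤ) ≤ |n| → C ≤ SS n 0 := by
  classical
  obtain ⟨J, hJ⟩ := pow_unbounded_of_one_lt (8 * C) (by norm_num : (1 : ℝ) < 11 / 10)
  obtain ⟨N, hN⟩ := exists_nat_gt (1 / (2 * et ^ J))
  refine ⟨N, fun n hn => ?_⟩
  have hn' : (N : ℝ) ≤ |(n : ℝ)| := by exact_mod_cast hn
  have hJ0 := pow_pos et_pos J
  have h1 : 1 / 2 < |(n : ℝ)| * et ^ J := by
    rw [div_lt_iff₀ (by positivity)] at hN
    nlinarith
  have hex : ∃ j : ℕ, |(n : ℝ)| * et ^ j ≤ 1 / 2 := by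
    have hpos : 0 < |(n : ℝ)| := by
      by_contra! h
      nlinarith
    obtain ⟨j, hj⟩ := exists_pow_lt_of_lt_one (x := 1 / (2 * |(n : ℝ)|)) (by positivity)
      (by linarith [et_lt] : et < 1)
    refine ⟨j, ?_⟩
    rw [lt_div_iff₀ (by positivity)] at hj
    linarith
  have hj := Nat.find_spec hex
  have hJj : J < Nat.find hex := by
    by_contra! h
    have := pow_le_pow_of_le_one et_pos.le (by linarith [et_lt]) h
    nlinarith [abs_nonneg (n : ℝ)]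
  obtain ⟨i, hi⟩ : ∃ i, Nat.find hex = i + 1 := ⟨Nat.find hex - 1, by omega⟩
  have hi2 : ¬ (|(n : ℝ)| * et ^ i ≤ 1 / 2) := Nat.find_min hex (by omega)
  rw [hi] at hj hJj
  refine le_trans ?_ (le_SS_origin n (i + 1))
  rw [tm_origin]
  set x : ℝ := n * et ^ (i + 1) with hx
  have hxa : |x| = |(n : ℝ)| * et ^ (i + 1) := by
    rw [hx, abs_mul, abs_of_pos (pow_pos et_pos _)]
  have hx1 : |x| ≤ 1 / 2 := by rw [hxa]; exact hj
  have hx2 : 1 / 8 ≤ |x| := by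
    rw [hxa, pow_succ, ← mul_assoc]
    nlinarith [et_gt]
  have h2 := cos_le_one_sub_mul_cos_sq (x := 2 * π * x) (by
    rw [abs_mul, abs_of_pos two_pi_pos]; nlinarith [pi_pos])
  have h3 : 2 / π ^ 2 * (2 * π * x) ^ 2 = 8 * |x| ^ 2 := by
    rw [sq_abs]; field_simp; ring
  have h4 : 1 / 8 ≤ 1 - cos (2 * π * x) := by nlinarith
  have h5 : (11 / 10 : ℝ) ^ J ≤ AA (i + 1) := pow_le_pow_right₀ (by norm_num) hJj.le
  have h6 := AA_pos (i + 1)
  nlinarith

end Pool.Agent.MP_742cc2_an.H85
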